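import Mathlib

set_option autoImplicit false

namespace Pool.Agent.Results.MP_93d976_co.Counter

/-- two unit cubes share a face -/
def Nbr (p q : ℕ × ℕ × ℕ) : Prop :=
  Nat.dist p.1 q.1 + Nat.dist p.2.1 q.2.1 + Nat.dist p.2.2 q.2.2 = 1

instance (p q : ℕ × ℕ × ℕ) : Decidable (Nbr p q) := by unfold Nbr; infer_instance

/-- the box `C(k, l, m)` -/
def box (k l m : ℕ) : Finset (ℕ × ℕ × ℕ) := Finset.Icc 1 k ×ˢ Finset.Icc 1 l ×ˢ Finset.Icc 1 m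

/-- a move deletes a cube with exactly three neighbours in the current position -/
def Move (S T : Finset (ℕ × ℕ × ℕ)) : Prop :=
  ∃ c ∈ S, (S.filter (Nbr c)).card = 3 ∧ T = S.erase c

/-- the box `C(k, l, m)` has a solution -/
def HasSol (k l m : ℕ) : Prop :=
  ∃ S : Finset (ℕ × ℕ × ℕ), (∀ p ∈ S, ∀ q ∈ S, ¬ Nbr p q) ∧
    Relation.ReflTransGen Move (box k l m) S

def run : List (ℕ × ℕ × ℕ) → Finset (ℕ × ℕ × ℕ) → Bool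
  | [], S => decide (∀ p ∈ S, ∀ q ∈ S, ¬ Nbr p q)
  | c :: cs, S => decide (c ∈ S) && decide ((S.filter (Nbr c)).card = 3) && run cs (S.erase c)

theorem run_sound : ∀ cs S, run cs S = true → ∃ T : Finset (ℕ × ℕ × ℕ),
    (∀ p ∈ T, ∀ q ∈ T, ¬ Nbr p q) ∧ Relation.ReflTransGen Move S T := by
  intro cs
  induction cs with
  | nil => intro S h; exact ⟨S, of_decide_eq_true h, .refl⟩
  | cons c cs ih =>
    intro S h
    simp only [run, Bool.and_eq_true, decide_eq_true_eq] at h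
    obtain ⟨T, a, b⟩ := ih _ h.2
    exact ⟨T, a, .head ⟨c, h.1.1, h.1.2, rfl⟩ b⟩

theorem s239 : HasSol 2 3 9 := run_sound [(1, 3, 9), (1, 3, 8), (2, 3, 8), (1, 3, 7), (1, 3, 6), (2, 3, 6), (1, 3, 5), (1, 3, 4), (2, 3, 4), (1, 1, 1), (1, 1, 2), (2, 1, 2), (1, 3, 3), (1, 1, 3), (1, 2, 3), (1, 2, 2), (2, 2, 2), (2, 3, 2), (1, 2, 4), (1, 2, 5), (1, 2, 6), (1, 2, 7), (1, 2, 8), (2, 2, 8), (2, 2, 9), (2, 2, 7), (1, 1, 5), (2, 1, 5), (2, 2, 5), (2, 2, 3), (2, 2, 1), (2, 1, 8), (2, 1, 6), (2, 1, 4), (1, 3, 1), (1, 1, 9), (1, 1, 7)] _ (by decide +kernel)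

theorem s336 : HasSol 3 3 6 := run_sound [(1, 3, 6), (2, 3, 6), (1, 3, 5), (2, 3, 5), (3, 3, 5), (1, 3, 4), (2, 3, 4), (1, 3, 3), (2, 3, 3), (3, 3, 3), (3, 3, 1), (1, 1, 6), (2, 1, 6), (2, 2, 6), (3, 2, 6), (3, 1, 1), (3, 1, 2), (3, 1, 3), (3, 1, 4), (1, 1, 5), (1, 2, 5), (2, 2, 5), (1, 2, 4), (2, 2, 4), (3, 2, 4), (2, 1, 4), (2, 1, 3), (2, 2, 3), (2, 1, 1), (1, 3, 1), (1, 2, 1), (2, 2, 1), (1, 1, 3), (1, 1, 2), (1, 2, 2), (2, 2, 2), (3, 2, 2), (3, 1, 5), (2, 3, 2)] _ (by decide +kernel)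

theorem result : (¬ ∀ k, 1 ≤ k → k ≠ 6 → ¬ HasSol 2 3 k) ∧
    (¬ ((∀ k, Odd k → HasSol 3 3 k) ∧ ∀ k, 1 ≤ k → Even k → k ≠ 4 → ¬ HasSol 3 3 k)) ∧
    HasSol 2 3 9 ∧ HasSol 3 3 6 :=
  ⟨fun h => h 9 (by norm_num) (by norm_num) s239,
    fun h => h.2 6 (by norm_num) (by decide) (by norm_num) s336, s239, s336⟩

end Pool.Agent.Results.MP_93d976_co.Counter
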